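import Pool.Agent.W23.UG.Fin4
import Pool.Agent.W135.UG.TUPG

/-! UG project: assembly. -/

namespace Pool.Agent.W23.UG

open Finset Polynomial
open Pool.Agent.H373R2.T7
open Pool.Agent.W23.UL

open Classical in
theorem honest_thm (k : ℕ) (f : Fin k → ℤ[X]) (hf : ∀ i, 1 ≤ (f i).natDegree)
    (hl : ∀ i, 0 < (f i).leadingCoeff) (B : ℕ) (hB : 1 ≤ B) (U : ℕ) :
    ∃ B0 : ℕ, ∀ E : ℕ, ∃ x0 : ℕ, ∀ x : ℕ, x0 ≤ x →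
      ∀ z : ℕ, Real.log x ^ B0 ≤ z → (z : ℝ) ≤ Real.log x ^ E →
      ∀ g : ℕ → ℝ, (∀ n, |g n| ≤ 1) →
      ∃ H : Finset (Fin k → ℕ), (H.card : ℝ) ≤ (∏ i, ((x : ℝ) ^ (f i).natDegree)) / Real.log x ^ U ∧
        ∀ M ∈ Fintype.piFinset (fun i => Icc 1 (B * x ^ (f i).natDegree)), M ∉ H →
          |∑ n ∈ Icc 1 x, g n * ∏ i, lamI ((M i : ℤ) - (f i).eval (n : ℤ)) -
            (Vz z)⁻¹ ^ k * ∑ n ∈ (Icc 1 x).filter (fun n : ℕ => ∀ i, rough z ((M i : ℤ) - (f i).eval (n : ℤ))), g n| ≤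
            x / Real.log x ^ U :=
  honestG Pool.Agent.W135.UG.TUPG k f hf hl B hB U

open Classical in
theorem law_thm (k : ℕ) (f : Fin k → ℤ[X]) (hf : ∀ i, 1 ≤ (f i).natDegree)
    (hl : ∀ i, 0 < (f i).leadingCoeff) (B : ℕ) (hB : 1 ≤ B) (U : ℕ) :
    ∃ B0 : ℕ, ∀ E : ℕ, ∃ x0 : ℕ, ∀ x : ℕ, x0 ≤ x →
      ∀ z : ℕ, Real.log x ^ B0 ≤ z → (z : ℝ) ≤ Real.log x ^ E →
      ∀ g : ℕ → ℝ, (∀ n, |g n| ≤ 1) →
      ∃ H : Finset (Fin k → ℕ), (H.card : ℝ) ≤ (∏ i, ((x : ℝ) ^ (f i).natDegree)) / Real.log x ^ U ∧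
        ∀ M ∈ Fintype.piFinset (fun i => Icc 1 (B * x ^ (f i).natDegree)), M ∉ H →
          |∑ n ∈ Icc 1 x, g n * ∏ i, qI z ((M i : ℤ) - (f i).eval (n : ℤ)) -
            (Vz z)⁻¹ ^ k * ∑ n ∈ (Icc 1 x).filter (fun n : ℕ => ∀ i, 1 ≤ (M i : ℤ) - (f i).eval (n : ℤ)), g n| ≤
            x / Real.log x ^ U :=
  ruleG Pool.Agent.W135.UG.TUPG k f hf hl B hB U

open Classical in
theorem count_thm (k : ℕ) (f : Fin k → ℤ[X]) (hf : ∀ i, 1 ≤ (f i).natDegree)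
    (hl : ∀ i, 0 < (f i).leadingCoeff) (B : ℕ) (hB : 1 ≤ B) (C U : ℕ) (ε : ℝ) (hε : 0 < ε) :
    ∃ B0 : ℕ, ∀ E : ℕ, ∃ x0 : ℕ, ∀ x : ℕ, x0 ≤ x →
      ∀ z : ℕ, Real.log x ^ B0 ≤ z → (z : ℝ) ≤ Real.log x ^ E →
      ∀ A : Finset ℕ, A ⊆ Icc 1 x → x / Real.log x ^ C ≤ (A.card : ℝ) →
      ∃ H : Finset (Fin k → ℕ), (H.card : ℝ) ≤ (∏ i, ((x : ℝ) ^ (f i).natDegree)) / Real.log x ^ U ∧
        ∀ M ∈ Fintype.piFinset (fun i => Icc 1 (B * x ^ (f i).natDegree)), M ∉ H →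
          |((A.filter (fun n : ℕ => ∀ i, prm z ((M i : ℤ) - (f i).eval (n : ℤ)))).card : ℝ) -
            ((A.filter (fun n : ℕ => ∀ i, 1 ≤ (M i : ℤ) - (f i).eval (n : ℤ))).card : ℝ) /
              ∏ i, (Vz z * ((f i).natDegree * Real.log x))| ≤
            ε * (A.card / ∏ i, (Vz z * ((f i).natDegree * Real.log x))) :=
  countG Pool.Agent.W135.UG.TUPG bilq Pool.Agent.W790.UL.SMB k f hf hl B hB C U ε hε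

end Pool.Agent.W23.UG
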