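import Pool.Agent.W23.UL.Fin3

/-!
UG project (helper23): representations `N_i = f_i(n) + q_i` with `n` in an ARBITRARY set of integers.

`St_TUPG` is the statement of the task; the doc comment is its proof.
-/

namespace Pool.Agent.W23.UG

open Finset Polynomial
open Pool.Agent.H373R2.T7

/-- the bilinear bound for a pair of functions (proved for `qI, rI`: UL-BILR, and for `lamI, lamzI`:
`bil_lam` of `H373R2/T7/BilLam.lean`) -/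
def BIL (P Q : ℕ → ℤ → ℝ) : Prop := ∀ f : ℤ[X], 1 ≤ f.natDegree → 0 < f.leadingCoeff → ∀ B : ℕ, 1 ≤ B → ∀ U : ℕ,
    ∃ B0 : ℕ, ∀ E : ℕ, ∃ N0 : ℕ, ∀ N : ℕ, N0 ≤ N → ∀ x : ℕ, N ≤ B * x ^ f.natDegree →
    x ^ f.natDegree ≤ B * N →
    ∀ A : ℕ, A ≤ B * N → ∀ z : ℕ, Real.log N ^ B0 ≤ z → (z : ℝ) ≤ Real.log N ^ E →
    ∀ σ : ℤ, (σ = 1 ∨ σ = -1) → ∀ G c : ℕ → ℂ, (∀ a, ‖G a‖ ≤ 1) → (∀ m, ‖c m‖ ≤ 1) →
    ‖∑ a ∈ Icc 1 A, ∑ m ∈ Icc 1 x, G a * c m *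
      ((P z (a + σ * f.eval (m : ℤ)) - Q z (a + σ * f.eval (m : ℤ)) : ℝ) : ℂ)‖ ≤
      N * x / Real.log N ^ U

/-- **TUPG** (theorem `TUPG : St_TUPG`): from the bilinear bound to simultaneous Goldbach-type sums
over the common variable `n ≤ x` with arbitrary bounded weights `g`.

Proof: copy and adapt `TUPR` of `Pool/Agent/W108/UL/TUPR.lean` (or `tuple_diff` of
`H373R2/T7/Tuple.lean`): `tele` of `H373R2/T7/Telesc.lean` with its `N := x` (the common variable `n`),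
its boxes `x i := B * x ^ d_i` (the variables `v = N_i`), `P i n v := P z (v - f_i(n))`,
`Q i n v := Q z (v - f_i(n))`, `Λ := c L` with `L = log x`, `c = 2 + max d_i + ...` (all arguments are
`≤ B x^(d_i) + |f_i(n)| ≤ c1 x^(d_i)`, so `P, Q ≤ log(c1 x^(d_i)) ≤ (d_i + 1) L`; `Vz_inv_small`), and
the hypothesis `hone` from `l1_of_bil'` (roles exchanged: `a = N_i ≤ A := B x^(d_i)`, `m = n ≤ x`,
`σ = -1`) and `hB (f i) .. B (U + k + 2)` applied with `N := x ^ d_i`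
(`N ≤ B x^(d_i)`, `x^(d_i) ≤ B N`; `log N = d_i log x`, so `log x ^ (B0 + 1) ≥ log N ^ B0` and
`z ≤ log x ^ E ≤ log N ^ E` for large `x`). -/
def St_TUPG : Prop := ∀ P Q : ℕ → ℤ → ℝ, BIL P Q →
    (∀ z k, 0 ≤ P z k) → (∀ z (k : ℤ), 1 ≤ k → P z k ≤ Real.log k) → (∀ z (k : ℤ), k ≤ 0 → P z k = 0) →
    (∀ z k, 0 ≤ Q z k) → (∀ z k, Q z k ≤ (Vz z)⁻¹) →
    ∀ (k : ℕ) (f : Fin k → ℤ[X]), (∀ i, 1 ≤ (f i).natDegree) →
    (∀ i, 0 < (f i).leadingCoeff) → ∀ B : ℕ, 1 ≤ B → ∀ U : ℕ,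
    ∃ B0 : ℕ, ∀ E : ℕ, ∃ x0 : ℕ, ∀ x : ℕ, x0 ≤ x →
      ∀ z : ℕ, Real.log x ^ B0 ≤ z → (z : ℝ) ≤ Real.log x ^ E →
      ∀ g : ℕ → ℝ, (∀ n, |g n| ≤ 1) →
      ∑ M ∈ Fintype.piFinset (fun i => Icc 1 (B * x ^ (f i).natDegree)), |∑ n ∈ Icc 1 x, g n *
        (∏ i, P z ((M i : ℤ) - (f i).eval (n : ℤ)) - ∏ i, Q z ((M i : ℤ) - (f i).eval (n : ℤ)))| ≤
        x * (∏ i, ((x : ℝ) ^ (f i).natDegree)) / Real.log x ^ U

end Pool.Agent.W23.UG
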