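import Pool.Agent.W23.UG.Defs

/-! UG project: exceptional vectors. -/

namespace Pool.Agent.W23.UG

open Finset Polynomial
open Pool.Agent.H373R2.T7
open Pool.Agent.W23.UL

/-- the integer `v` is positive and has no prime factor `≤ z` -/
def rough (z : ℕ) (v : ℤ) : Prop := 1 ≤ v ∧ ∀ p ∈ pz z, ¬ p ∣ v.toNat

lemma markov {ι : Type*} (s : Finset ι) (Φ : ι → ℝ) (h0 : ∀ m ∈ s, 0 ≤ Φ m) (x P L : ℝ) (U V : ℕ) (hx : 0 < x) (hP : 0 ≤ P) (hL : 1 ≤ L)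
    (h : ∑ m ∈ s, Φ m ≤ x * P / L ^ (U + V)) :
    ∃ H : Finset ι, (H.card : ℝ) ≤ P / L ^ U ∧ ∀ m ∈ s, m ∉ H → Φ m ≤ x / L ^ V := by
  classical
  have hL0 : 0 < L := by linarith
  refine ⟨s.filter (fun m => x / L ^ V < Φ m), ?_, ?_⟩
  · have e1 : ((s.filter (fun m => x / L ^ V < Φ m)).card : ℝ) * (x / L ^ V) ≤ ∑ m ∈ s.filter (fun m => x / L ^ V < Φ m), Φ m := by
      rw [← nsmul_eq_mul]
      apply card_nsmul_le_sum
      intro m hm
      exact (mem_filter.1 hm).2.le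
    have e2 : ∑ m ∈ s.filter (fun m => x / L ^ V < Φ m), Φ m ≤ ∑ m ∈ s, Φ m :=
      sum_le_sum_of_subset_of_nonneg (filter_subset _ _) (fun m hm _ => h0 m hm)
    have e3 := e1.trans (e2.trans h)
    have hpos : 0 < x / L ^ V := by positivity
    rw [← le_div_iff₀ hpos] at e3
    refine e3.trans (le_of_eq ?_)
    rw [pow_add]
    field_simp
  · intro m hm hmH
    by_contra hc
    exact hmH (mem_filter.2 ⟨hm, not_le.1 hc⟩)

lemma rI_prod' {k : ℕ} (z : ℕ) (s : Fin k → ℤ) [Decidable (∀ i, 1 ≤ s i)] :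
    ∏ i, rI z (s i) = (Vz z)⁻¹ ^ k * (if ∀ i, 1 ≤ s i then 1 else 0) := by
  split_ifs with h
  · rw [rI_prod z s h, mul_one]
  · rw [mul_zero]
    push Not at h
    obtain ⟨i, hi⟩ := h
    apply prod_eq_zero (mem_univ i)
    unfold rI
    rw [if_neg (by omega)]

lemma lamzI_prod {k : ℕ} (z : ℕ) (s : Fin k → ℤ) [Decidable (∀ i, rough z (s i))] :
    ∏ i, lamzI z (s i) = (Vz z)⁻¹ ^ k * (if ∀ i, rough z (s i) then 1 else 0) := by
  split_ifs with h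
  · have h1 : ∀ i, lamzI z (s i) = (Vz z)⁻¹ := by
      intro i
      unfold lamzI lamz
      rw [if_pos (h i).1, if_pos (h i).2]
    simp only [h1]
    rw [prod_const, card_univ, Fintype.card_fin, mul_one]
  · rw [mul_zero]
    push Not at h
    obtain ⟨i, hi⟩ := h
    apply prod_eq_zero (mem_univ i)
    unfold lamzI lamz
    unfold rough at hi
    rw [not_and] at hi
    by_cases h1 : 1 ≤ s i
    · rw [if_pos h1, if_neg (hi h1)]
    · rw [if_neg h1]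

open Classical in
/-- the general law -/
theorem lawG (hT : St_TUPG) (P Q : ℕ → ℤ → ℝ) (hPQ : BIL P Q)
    (hP0 : ∀ z k, 0 ≤ P z k) (hPl : ∀ z (k : ℤ), 1 ≤ k → P z k ≤ Real.log k) (hPz : ∀ z (k : ℤ), k ≤ 0 → P z k = 0)
    (hQ0 : ∀ z k, 0 ≤ Q z k) (hQV : ∀ z k, Q z k ≤ (Vz z)⁻¹)
    (R : ℕ → ℤ → Prop)
    (hR : ∀ (k : ℕ) (z : ℕ) (s : Fin k → ℤ), ∏ i, Q z (s i) = (Vz z)⁻¹ ^ k * (if ∀ i, R z (s i) then 1 else 0))
    (k : ℕ) (f : Fin k → ℤ[X]) (hf : ∀ i, 1 ≤ (f i).natDegree)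
    (hl : ∀ i, 0 < (f i).leadingCoeff) (B : ℕ) (hB : 1 ≤ B) (U : ℕ) :
    ∃ B0 : ℕ, ∀ E : ℕ, ∃ x0 : ℕ, ∀ x : ℕ, x0 ≤ x →
      ∀ z : ℕ, Real.log x ^ B0 ≤ z → (z : ℝ) ≤ Real.log x ^ E →
      ∀ g : ℕ → ℝ, (∀ n, |g n| ≤ 1) →
      ∃ H : Finset (Fin k → ℕ), (H.card : ℝ) ≤ (∏ i, ((x : ℝ) ^ (f i).natDegree)) / Real.log x ^ U ∧
        ∀ M ∈ Fintype.piFinset (fun i => Icc 1 (B * x ^ (f i).natDegree)), M ∉ H →
          |∑ n ∈ Icc 1 x, g n * ∏ i, P z ((M i : ℤ) - (f i).eval (n : ℤ)) -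
            (Vz z)⁻¹ ^ k * ∑ n ∈ (Icc 1 x).filter (fun n : ℕ => ∀ i, R z ((M i : ℤ) - (f i).eval (n : ℤ))), g n| ≤
            x / Real.log x ^ U := by
  obtain ⟨B0, hB0⟩ := hT P Q hPQ hP0 hPl hPz hQ0 hQV k f hf hl B hB (U + U)
  refine ⟨B0, fun E => ?_⟩
  obtain ⟨x0, h0⟩ := hB0 E
  refine ⟨max x0 3, fun x hx z hz1 hz2 g hg => ?_⟩
  have hx3 : 3 ≤ x := by omega
  have hx0 : (0 : ℝ) < x := by exact_mod_cast (by omega : 0 < x)
  have hL1 : 1 ≤ Real.log x := by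
    rw [Real.le_log_iff_exp_le hx0]
    have : (3 : ℝ) ≤ x := by exact_mod_cast hx3
    linarith [Real.exp_one_lt_d9]
  obtain ⟨H, hH, hHm⟩ := markov (Fintype.piFinset (fun i => Icc 1 (B * x ^ (f i).natDegree)))
    (fun M => |∑ n ∈ Icc 1 x, g n *
        (∏ i, P z ((M i : ℤ) - (f i).eval (n : ℤ)) - ∏ i, Q z ((M i : ℤ) - (f i).eval (n : ℤ)))|)
    (fun _ _ => abs_nonneg _) x (∏ i, ((x : ℝ) ^ (f i).natDegree)) (Real.log x) U U hx0
    (prod_nonneg fun _ _ => by positivity) hL1 (h0 x (by omega) z hz1 hz2 g hg)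
  refine ⟨H, hH, fun M hM hMH => ?_⟩
  have h1 := hHm M hM hMH
  refine le_trans (le_of_eq ?_) h1
  congr 1
  rw [mul_sum, sum_filter, ← sum_sub_distrib]
  apply sum_congr rfl
  intro n _
  rw [hR k z (fun i => (M i : ℤ) - (f i).eval (n : ℤ))]
  split_ifs <;> ring

lemma arith2 (G W D D' e ε T1 T2 Lk k S : ℝ) (hG : 0 ≤ G) (hW : 0 ≤ W) (hk : 0 ≤ k) (he : 0 ≤ e) (hD : 0 ≤ D) (hDD : D ≤ D')
    (hε : 0 < ε) (hL : 1 ≤ Lk) (hT1 : 1 ≤ T1) (hT2 : 0 < T2) (ht1 : 1 - ε / 4 ≤ T2) (ht2 : T2 ≤ 1) (ht3 : T1 * T2 ≤ 1)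
    (ht4 : 1 / 2 ≤ T2) (hWk : W ≤ k * e) (hke : 16 * (k + 1) * e ≤ ε * D') (heD : e ≤ D' / 2)
    (m1 : -e ≤ S - D * Lk) (m2 : S - D * Lk ≤ e) (hS1 : S ≤ (G + W) * (T1 * Lk)) (hS2 : (G - W) * (T2 * Lk) ≤ S) :
    |G - D| ≤ ε * D' := by
  have hL0 : 0 < Lk := by linarith
  have heL : e ≤ e * Lk := le_mul_of_one_le_right he hL
  have u7 : 16 * e ≤ ε * D' := by
    have : 0 ≤ k * e := mul_nonneg hk he
    linarith
  have u8 : 16 * (k * e) ≤ ε * D' := by linarith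
  have hW2 : 16 * W ≤ ε * D' := by linarith
  have hεD : ε * D ≤ ε * D' := mul_le_mul_of_nonneg_left hDD hε.le
  have hlow : D - ε * D' ≤ G := by
    have u1 : (D - e) * Lk ≤ ((G + W) * T1) * Lk := by
      have e1 : (D - e) * Lk = D * Lk - e * Lk := by ring
      have e2 : ((G + W) * T1) * Lk = (G + W) * (T1 * Lk) := by ring
      rw [e1, e2]; linarith
    have u2 := le_of_mul_le_mul_right u1 hL0
    have u3 : (D - e) * T2 ≤ G + W := by
      calc (D - e) * T2 ≤ ((G + W) * T1) * T2 := mul_le_mul_of_nonneg_right u2 hT2.le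
        _ = (G + W) * (T1 * T2) := by ring
        _ ≤ (G + W) * 1 := mul_le_mul_of_nonneg_left ht3 (by linarith)
        _ = _ := mul_one _
    have u4 : D * (1 - ε / 4) ≤ D * T2 := mul_le_mul_of_nonneg_left ht1 hD
    have u5 : e * T2 ≤ e := mul_le_of_le_one_right he ht2
    have u6 : (D - e) * T2 = D * T2 - e * T2 := by ring
    have u9 : D * (1 - ε / 4) = D - ε * D / 4 := by ring
    linarith
  have hupp : G ≤ D + ε * D' := by
    have u1 : ((G - W) * T2) * Lk ≤ (D + e) * Lk := by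
      have e1 : (D + e) * Lk = D * Lk + e * Lk := by ring
      have e2 : ((G - W) * T2) * Lk = (G - W) * (T2 * Lk) := by ring
      rw [e1, e2]; linarith
    have u2 := le_of_mul_le_mul_right u1 hL0
    have u5 : 1 ≤ (1 + ε / 2) * T2 := by
      rcases le_or_gt ε 2 with h' | h'
      · calc (1 : ℝ) ≤ (1 + ε / 2) * (1 - ε / 4) := by nlinarith
          _ ≤ _ := mul_le_mul_of_nonneg_left ht1 (by linarith)
      · calc (1 : ℝ) ≤ (1 + ε / 2) * (1 / 2) := by linarith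
          _ ≤ _ := mul_le_mul_of_nonneg_left ht4 (by linarith)
    have u3 : G - W ≤ (D + e) * (1 + ε / 2) := by
      have v1 : (G - W) * T2 ≤ ((D + e) * (1 + ε / 2)) * T2 := by
        calc (G - W) * T2 ≤ (D + e) * 1 := by linarith
          _ ≤ (D + e) * ((1 + ε / 2) * T2) := mul_le_mul_of_nonneg_left u5 (by linarith)
          _ = _ := by ring
      exact le_of_mul_le_mul_right v1 hT2
    have u9 : e * (ε / 2) ≤ (D' / 2) * (ε / 2) := mul_le_mul_of_nonneg_right heD (by linarith)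
    have u10 : (D + e) * (1 + ε / 2) = D + ε * D / 2 + e + e * (ε / 2) := by ring
    have u11 : (D' / 2) * (ε / 2) = ε * D' / 4 := by ring
    linarith
  rw [abs_le]
  constructor <;> linarith

end Pool.Agent.W23.UG
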