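import Pool.Agent.W23.UG.Fin1

/-! UG project: the counting theorem. -/

namespace Pool.Agent.W23.UG

open Finset Polynomial
open Pool.Agent.H373R2.T7
open Pool.Agent.W23.UL

lemma qI_le_log (z : ℕ) (v : ℤ) (h : 1 ≤ v) : qI z v ≤ Real.log v := by
  have h1 := qI_le z v v.toNat (by omega) (by omega)
  refine h1.trans (le_of_eq ?_)
  congr 1
  have : ((v.toNat : ℕ) : ℤ) = v := by omega
  exact_mod_cast congrArg (fun t : ℤ => (t : ℝ)) this

lemma qI_zero (z : ℕ) (v : ℤ) (h : v ≤ 0) : qI z v = 0 := by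
  unfold qI
  rw [if_neg (by omega)]

open Classical in
lemma card_coord {k : ℕ} (b : Fin k → ℕ) (i : Fin k) (S : Finset ℕ) :
    (((Fintype.piFinset (fun j => Icc 1 (b j))).filter (fun M => M i ∈ S)).card : ℝ) ≤
      ∏ j, (if j = i then (S.card : ℝ) else b j) := by
  have h1 : (Fintype.piFinset (fun j => Icc 1 (b j))).filter (fun M => M i ∈ S) ⊆
      Fintype.piFinset (fun j => if j = i then S else Icc 1 (b j)) := by
    intro M hM
    rw [mem_filter, Fintype.mem_piFinset] at hM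
    rw [Fintype.mem_piFinset]
    intro j
    split_ifs with h
    · rw [h]; exact hM.2
    · exact hM.1 j
  have h2 := card_le_card h1
  rw [Fintype.card_piFinset] at h2
  have h3 : ((∏ j, (if j = i then S else Icc 1 (b j)).card : ℕ) : ℝ) = ∏ j, (if j = i then (S.card : ℝ) else b j) := by
    push_cast
    apply prod_congr rfl
    intro j _
    split_ifs
    · rfl
    · simp
  rw [← h3]
  exact_mod_cast h2

open Classical in
/-- few vectors have many bad `n` -/
lemma few_vec (hS : St_SMB) (k : ℕ) (f : Fin k → ℤ[X]) (hf : ∀ i, 1 ≤ (f i).natDegree) (B : ℕ) (hB : 1 ≤ B)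
    (c1 : ℕ) (hc1 : 1 ≤ c1) (U Q1 : ℕ) (τ : ℝ) (hτ : 0 < τ) (hτ1 : τ < 1) :
    ∃ B0 : ℕ, ∀ E : ℕ, ∃ x0 : ℕ, ∀ x : ℕ, x0 ≤ x →
      ∀ z : ℕ, Real.log x ^ B0 ≤ z → (z : ℝ) ≤ Real.log x ^ E →
      ∃ H : Finset (Fin k → ℕ), (H.card : ℝ) ≤ (∏ i, ((x : ℝ) ^ (f i).natDegree)) / Real.log x ^ U ∧
        ∀ M ∈ Fintype.piFinset (fun i => Icc 1 (B * x ^ (f i).natDegree)), M ∉ H →
          (((Icc 1 x).filter (fun n : ℕ => ∃ i, 1 ≤ (M i : ℤ) - (f i).eval (n : ℤ) ∧
            ((M i : ℤ) - (f i).eval (n : ℤ)).toNat ∈ (Icc 1 (c1 * x ^ (f i).natDegree)).filter (fun v => sqd z v ∨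
              (rgh z v : ℝ) ≤ ((x ^ (f i).natDegree : ℕ) : ℝ) ^ (1 - τ)))).card : ℝ) ≤ x / Real.log x ^ Q1 := by
  set Q : ℕ := U + Q1 + 1 with hQ
  refine ⟨Q + 2, fun E => ?_⟩
  have hfb := few_bad hS E Q c1 hc1 τ hτ hτ1
  obtain ⟨N1, h1⟩ := hfb
  set dm : ℕ := univ.sup (fun i => (f i).natDegree) with hdm
  obtain ⟨N2, h2⟩ := ev_L' (max ((dm : ℝ) ^ (Q + 1)) (max (k * B ^ k) 1))
  refine ⟨max (max N1 N2) 3, fun x hx z hz1 hz2 => ?_⟩
  have a1 : N1 ≤ x := by omega
  have a2 : N2 ≤ x := by omega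
  have a3 : 3 ≤ x := by omega
  have hx0 : (0 : ℝ) < x := by exact_mod_cast (by omega : 0 < x)
  have hx1 : (1 : ℝ) ≤ x := by exact_mod_cast (by omega : 1 ≤ x)
  have hL := h2 x a2
  set L := Real.log x with hLd
  have hL1 : 1 ≤ L := ((le_max_right _ _).trans (le_max_right _ _)).trans hL
  have hLd2 : (dm : ℝ) ^ (Q + 1) ≤ L := (le_max_left _ _).trans hL
  have hLk : (k : ℝ) * B ^ k ≤ L := ((le_max_left _ _).trans (le_max_right _ _)).trans hL
  have hL0 : 0 < L := by linarith
  have hlogX : ∀ i, Real.log ((x ^ (f i).natDegree : ℕ) : ℝ) = (f i).natDegree * L := by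
    intro i; push_cast; rw [Real.log_pow]
  have hWb : ∀ i, (((Icc 1 (c1 * x ^ (f i).natDegree)).filter (fun v => sqd z v ∨
              (rgh z v : ℝ) ≤ ((x ^ (f i).natDegree : ℕ) : ℝ) ^ (1 - τ))).card : ℝ) ≤ (x : ℝ) ^ (f i).natDegree / L ^ Q := by
    intro i
    have hdi : ((f i).natDegree : ℝ) ≤ dm := by exact_mod_cast le_sup (f := fun i => (f i).natDegree) (mem_univ i)
    have hdi1 : (1 : ℝ) ≤ (f i).natDegree := by exact_mod_cast hf i
    have hxX : x ≤ x ^ (f i).natDegree := Nat.le_self_pow (by have := hf i; omega) x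
    have hLX : L ≤ (f i).natDegree * L := by nlinarith
    have h3 := h1 (x ^ (f i).natDegree) (a1.trans hxX) z (by
      rw [hlogX i, mul_pow]
      calc ((f i).natDegree : ℝ) ^ (Q + 1) * L ^ (Q + 1) ≤ (dm : ℝ) ^ (Q + 1) * L ^ (Q + 1) := by gcongr
        _ ≤ L * L ^ (Q + 1) := by gcongr
        _ = L ^ (Q + 2) := by ring
        _ ≤ z := hz1) (by
      rw [hlogX i]
      exact hz2.trans (pow_le_pow_left₀ hL0.le hLX _))
    refine h3.trans ?_
    rw [hlogX i]
    push_cast
    apply div_le_div_of_nonneg_left (by positivity) (by positivity) (pow_le_pow_left₀ hL0.le hLX _)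
  set Φ : (Fin k → ℕ) → ℝ := fun M => (((Icc 1 x).filter (fun n : ℕ => ∃ i, 1 ≤ (M i : ℤ) - (f i).eval (n : ℤ) ∧
            ((M i : ℤ) - (f i).eval (n : ℤ)).toNat ∈ (Icc 1 (c1 * x ^ (f i).natDegree)).filter (fun v => sqd z v ∨
              (rgh z v : ℝ) ≤ ((x ^ (f i).natDegree : ℕ) : ℝ) ^ (1 - τ)))).card : ℝ) with hΦ
  have hprod : 0 ≤ ∏ i, ((x : ℝ) ^ (f i).natDegree) := prod_nonneg fun _ _ => by positivity
  have key : ∑ M ∈ Fintype.piFinset (fun i => Icc 1 (B * x ^ (f i).natDegree)), Φ M ≤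
      x * (∏ i, ((x : ℝ) ^ (f i).natDegree)) / L ^ (U + Q1) := by
    have e1 : ∀ M, Φ M ≤ ∑ n ∈ Icc 1 x, ∑ i, (if 1 ≤ (M i : ℤ) - (f i).eval (n : ℤ) ∧
            ((M i : ℤ) - (f i).eval (n : ℤ)).toNat ∈ (Icc 1 (c1 * x ^ (f i).natDegree)).filter (fun v => sqd z v ∨
              (rgh z v : ℝ) ≤ ((x ^ (f i).natDegree : ℕ) : ℝ) ^ (1 - τ)) then (1 : ℝ) else 0) := by
      intro M
      rw [hΦ]
      beta_reduce
      rw [card_filter, Nat.cast_sum]
      apply sum_le_sum
      intro n _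
      rw [Nat.cast_ite, Nat.cast_one, Nat.cast_zero]
      split_ifs with h
      · obtain ⟨i, hi⟩ := h
        have := single_le_sum (s := univ) (f := fun i => (if 1 ≤ (M i : ℤ) - (f i).eval (n : ℤ) ∧
            ((M i : ℤ) - (f i).eval (n : ℤ)).toNat ∈ (Icc 1 (c1 * x ^ (f i).natDegree)).filter (fun v => sqd z v ∨
              (rgh z v : ℝ) ≤ ((x ^ (f i).natDegree : ℕ) : ℝ) ^ (1 - τ)) then (1 : ℝ) else 0))
          (fun j _ => by split_ifs <;> norm_num) (mem_univ i)
        refine le_trans (le_of_eq ?_) this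
        exact (if_pos hi).symm
      · exact sum_nonneg fun j _ => by split_ifs <;> norm_num
    refine (sum_le_sum fun M _ => e1 M).trans ?_
    rw [sum_comm]
    have e2 : ∀ n ∈ Icc 1 x, ∑ M ∈ Fintype.piFinset (fun i => Icc 1 (B * x ^ (f i).natDegree)), ∑ i, (if 1 ≤ (M i : ℤ) - (f i).eval (n : ℤ) ∧
            ((M i : ℤ) - (f i).eval (n : ℤ)).toNat ∈ (Icc 1 (c1 * x ^ (f i).natDegree)).filter (fun v => sqd z v ∨
              (rgh z v : ℝ) ≤ ((x ^ (f i).natDegree : ℕ) : ℝ) ^ (1 - τ)) then (1 : ℝ) else 0) ≤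
        k * (B ^ k * (∏ i, ((x : ℝ) ^ (f i).natDegree)) / L ^ Q) := by
      intro n _
      rw [sum_comm]
      have e3 : ∀ i, ∑ M ∈ Fintype.piFinset (fun i => Icc 1 (B * x ^ (f i).natDegree)), (if 1 ≤ (M i : ℤ) - (f i).eval (n : ℤ) ∧
            ((M i : ℤ) - (f i).eval (n : ℤ)).toNat ∈ (Icc 1 (c1 * x ^ (f i).natDegree)).filter (fun v => sqd z v ∨
              (rgh z v : ℝ) ≤ ((x ^ (f i).natDegree : ℕ) : ℝ) ^ (1 - τ)) then (1 : ℝ) else 0) ≤
          B ^ k * (∏ i, ((x : ℝ) ^ (f i).natDegree)) / L ^ Q := by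
        intro i
        rw [← sum_filter, sum_const, nsmul_eq_mul, mul_one]
        set S : Finset ℕ := (Icc 1 (B * x ^ (f i).natDegree)).filter (fun w : ℕ => 1 ≤ (w : ℤ) - (f i).eval (n : ℤ) ∧
            ((w : ℤ) - (f i).eval (n : ℤ)).toNat ∈ (Icc 1 (c1 * x ^ (f i).natDegree)).filter (fun v => sqd z v ∨
              (rgh z v : ℝ) ≤ ((x ^ (f i).natDegree : ℕ) : ℝ) ^ (1 - τ))) with hSd
        have e4 : (S.card : ℝ) ≤ (x : ℝ) ^ (f i).natDegree / L ^ Q := by
          refine le_trans ?_ (hWb i)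
          have : S.card ≤ ((Icc 1 (c1 * x ^ (f i).natDegree)).filter (fun v => sqd z v ∨
              (rgh z v : ℝ) ≤ ((x ^ (f i).natDegree : ℕ) : ℝ) ^ (1 - τ))).card := by
            apply card_le_card_of_injOn (fun w : ℕ => ((w : ℤ) - (f i).eval (n : ℤ)).toNat)
            · intro w hw
              exact (mem_filter.1 hw).2.2
            · intro a ha b hb hab
              have ha1 := (mem_filter.1 ha).2.1
              have hb1 := (mem_filter.1 hb).2.1
              simp only at hab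
              omega
          exact_mod_cast this
        have e5 := card_coord (fun i => B * x ^ (f i).natDegree) i S
        have e6 : (((Fintype.piFinset (fun i => Icc 1 (B * x ^ (f i).natDegree))).filter (fun M => 1 ≤ (M i : ℤ) - (f i).eval (n : ℤ) ∧
            ((M i : ℤ) - (f i).eval (n : ℤ)).toNat ∈ (Icc 1 (c1 * x ^ (f i).natDegree)).filter (fun v => sqd z v ∨
              (rgh z v : ℝ) ≤ ((x ^ (f i).natDegree : ℕ) : ℝ) ^ (1 - τ)))).card : ℝ) ≤
            (((Fintype.piFinset (fun i => Icc 1 (B * x ^ (f i).natDegree))).filter (fun M => M i ∈ S)).card : ℝ) := by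
          have : ((Fintype.piFinset (fun i => Icc 1 (B * x ^ (f i).natDegree))).filter (fun M => 1 ≤ (M i : ℤ) - (f i).eval (n : ℤ) ∧
            ((M i : ℤ) - (f i).eval (n : ℤ)).toNat ∈ (Icc 1 (c1 * x ^ (f i).natDegree)).filter (fun v => sqd z v ∨
              (rgh z v : ℝ) ≤ ((x ^ (f i).natDegree : ℕ) : ℝ) ^ (1 - τ)))) ⊆
              ((Fintype.piFinset (fun i => Icc 1 (B * x ^ (f i).natDegree))).filter (fun M => M i ∈ S)) := by
            intro M hM
            rw [mem_filter] at hM ⊢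
            refine ⟨hM.1, ?_⟩
            rw [hSd, mem_filter]
            exact ⟨(Fintype.mem_piFinset.1 hM.1) i, hM.2⟩
          exact_mod_cast card_le_card this
        refine e6.trans (e5.trans ?_)
        have hBr : (1 : ℝ) ≤ B := by exact_mod_cast hB
        calc ∏ j, (if j = i then (S.card : ℝ) else ((B * x ^ (f j).natDegree : ℕ) : ℝ))
            ≤ ∏ j, ((B * (x : ℝ) ^ (f j).natDegree) * (if j = i then 1 / L ^ Q else 1)) := by
              apply prod_le_prod
              · intro j _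
                split_ifs <;> positivity
              · intro j _
                split_ifs with h
                · subst h
                  refine e4.trans ?_
                  rw [mul_one_div]
                  apply div_le_div_of_nonneg_right _ (by positivity)
                  exact le_mul_of_one_le_left (by positivity) hBr
                · push_cast
                  rw [mul_one]
          _ = B ^ k * (∏ i, ((x : ℝ) ^ (f i).natDegree)) / L ^ Q := by
              rw [prod_mul_distrib, prod_mul_distrib, prod_const, card_univ, Fintype.card_fin, prod_ite_eq' univ i, if_pos (mem_univ i)]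
              ring
      refine (sum_le_sum fun i _ => e3 i).trans ?_
      rw [sum_const, card_univ, Fintype.card_fin, nsmul_eq_mul]
    refine (sum_le_sum e2).trans ?_
    rw [sum_const, Nat.card_Icc, Nat.add_sub_cancel, nsmul_eq_mul]
    calc (x : ℝ) * (k * (B ^ k * (∏ i, ((x : ℝ) ^ (f i).natDegree)) / L ^ Q))
        = (k * B ^ k / L) * (x * (∏ i, ((x : ℝ) ^ (f i).natDegree)) / L ^ (U + Q1)) := by
          rw [hQ, pow_succ]; field_simp
      _ ≤ 1 * (x * (∏ i, ((x : ℝ) ^ (f i).natDegree)) / L ^ (U + Q1)) := by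
          apply mul_le_mul_of_nonneg_right _ (by positivity)
          rw [div_le_one hL0]; exact hLk
      _ = _ := one_mul _
  exact markov _ Φ (fun M _ => Nat.cast_nonneg _) x _ L U Q1 hx0 hprod hL1 key

end Pool.Agent.W23.UG
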