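import Pool.Agent.W23.UG.Fin2

/-! UG project: the counting theorem. -/

namespace Pool.Agent.W23.UG

open Finset Polynomial
open Pool.Agent.H373R2.T7
open Pool.Agent.W23.UL

open Classical in
theorem countG (hT : St_TUPG) (hBil : BIL qI rI) (hS : St_SMB) (k : ℕ) (f : Fin k → ℤ[X]) (hf : ∀ i, 1 ≤ (f i).natDegree)
    (hl : ∀ i, 0 < (f i).leadingCoeff) (B : ℕ) (hB : 1 ≤ B) (C U : ℕ) (ε : ℝ) (hε : 0 < ε) :
    ∃ B0 : ℕ, ∀ E : ℕ, ∃ x0 : ℕ, ∀ x : ℕ, x0 ≤ x →
      ∀ z : ℕ, Real.log x ^ B0 ≤ z → (z : ℝ) ≤ Real.log x ^ E →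
      ∀ A : Finset ℕ, A ⊆ Icc 1 x → x / Real.log x ^ C ≤ (A.card : ℝ) →
      ∃ H : Finset (Fin k → ℕ), (H.card : ℝ) ≤ (∏ i, ((x : ℝ) ^ (f i).natDegree)) / Real.log x ^ U ∧
        ∀ M ∈ Fintype.piFinset (fun i => Icc 1 (B * x ^ (f i).natDegree)), M ∉ H →
          |((A.filter (fun n : ℕ => ∀ i, prm z ((M i : ℤ) - (f i).eval (n : ℤ)))).card : ℝ) -
            ((A.filter (fun n : ℕ => ∀ i, 1 ≤ (M i : ℤ) - (f i).eval (n : ℤ))).card : ℝ) /
              ∏ i, (Vz z * ((f i).natDegree * Real.log x))| ≤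
            ε * (A.card / ∏ i, (Vz z * ((f i).natDegree * Real.log x))) := by
  obtain ⟨τ, hτ0, hτ1, ht1, ht2, ht3, ht4⟩ := tau_ineq k ε hε
  set c1 : ℕ := B + univ.sup (fun i => cf (f i)) with hc1
  have hc11 : 1 ≤ c1 := by omega
  set Q1 : ℕ := C + k + 2 with hQ1
  obtain ⟨B1, hB1⟩ := lawG hT qI rI hBil qI_nonneg qI_le_log qI_zero rI_nonneg rI_le (fun _ v => 1 ≤ v)
    (fun k z s => by convert rI_prod' z s) k f hf hl B hB (max (U + 1) Q1)
  obtain ⟨B2, hB2⟩ := few_vec hS k f hf B hB c1 hc11 (U + 1) Q1 τ hτ0 hτ1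
  refine ⟨max B1 B2, fun E => ?_⟩
  obtain ⟨x1, h1⟩ := hB1 E
  obtain ⟨x2, h2⟩ := hB2 E
  set dP : ℝ := ∏ i, ((f i).natDegree : ℝ) with hdP
  have hdi1 : ∀ i, (1 : ℝ) ≤ (f i).natDegree := fun i => by exact_mod_cast hf i
  have hdP1 : 1 ≤ dP := by
    rw [hdP]
    calc (1 : ℝ) = ∏ _i : Fin k, (1 : ℝ) := by simp
      _ ≤ ∏ i, ((f i).natDegree : ℝ) := prod_le_prod (fun _ _ => zero_le_one) (fun i _ => hdi1 i)
  obtain ⟨x3, h3⟩ := ev_L' (max (Real.log c1 / τ) (max (32 * dP / ε) (max (2 * dP) 2)))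
  refine ⟨max (max x1 x2) (max x3 3), fun x hx z hz1 hz2 A hA hAc => ?_⟩
  have a1 : x1 ≤ x := by omega
  have a2 : x2 ≤ x := by omega
  have a3 : x3 ≤ x := by omega
  have hx3 : 3 ≤ x := by omega
  have hx0 : (0 : ℝ) < x := by exact_mod_cast (by omega : 0 < x)
  have hLc := h3 x a3
  set L := Real.log x with hL
  have hLτ : Real.log c1 / τ ≤ L := (le_max_left _ _).trans hLc
  have hLε : 32 * dP / ε ≤ L := ((le_max_left _ _).trans (le_max_right _ _)).trans hLc
  have hLd : 2 * dP ≤ L := (((le_max_left _ _).trans (le_max_right _ _)).trans (le_max_right _ _)).trans hLc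
  have hL2 : 2 ≤ L := (((le_max_right _ _).trans (le_max_right _ _)).trans (le_max_right _ _)).trans hLc
  have hL1 : 1 ≤ L := by linarith
  have hL0 : 0 < L := by linarith
  obtain ⟨H1, hH1, hm1⟩ := h1 x a1 z ((pow_le_pow_right₀ hL1 (le_max_left _ _)).trans hz1) hz2
    (fun n => if n ∈ A then 1 else 0) (by intro n; split_ifs <;> simp)
  obtain ⟨H2, hH2, hm2⟩ := h2 x a2 z ((pow_le_pow_right₀ hL1 (le_max_right _ _)).trans hz1) hz2
  rw [← hL] at hH1 hm1 hH2 hm2
  have hV0 := Vz_pos z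
  have hV1 := Vz_le_one z
  have hprod : 0 ≤ ∏ i, ((x : ℝ) ^ (f i).natDegree) := prod_nonneg fun _ _ => by positivity
  refine ⟨H1 ∪ H2, ?_, fun M hM hMH => ?_⟩
  · have e1 : ((H1 ∪ H2).card : ℝ) ≤ H1.card + H2.card := by exact_mod_cast card_union_le _ _
    have e2 : (∏ i, ((x : ℝ) ^ (f i).natDegree)) / L ^ (max (U + 1) Q1) ≤ (∏ i, ((x : ℝ) ^ (f i).natDegree)) / L ^ (U + 1) :=
      div_le_div_of_nonneg_left hprod (by positivity) (pow_le_pow_right₀ hL1 (le_max_left _ _))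
    have e3 : (∏ i, ((x : ℝ) ^ (f i).natDegree)) / L ^ (U + 1) + (∏ i, ((x : ℝ) ^ (f i).natDegree)) / L ^ (U + 1) ≤
        (∏ i, ((x : ℝ) ^ (f i).natDegree)) / L ^ U := by
      have : (∏ i, ((x : ℝ) ^ (f i).natDegree)) / L ^ (U + 1) = (1 / L) * ((∏ i, ((x : ℝ) ^ (f i).natDegree)) / L ^ U) := by
        rw [pow_succ]; field_simp
      rw [this]
      have h4 : 1 / L ≤ 1 / 2 := one_div_le_one_div_of_le (by norm_num) hL2
      have h5 : 0 ≤ (∏ i, ((x : ℝ) ^ (f i).natDegree)) / L ^ U := by positivity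
      nlinarith
    linarith
  rw [mem_union, not_or] at hMH
  have hmain := hm1 M hM hMH.1
  have hfew := hm2 M hM hMH.2
  set v : Fin k → ℕ → ℤ := fun i n => (M i : ℤ) - (f i).eval (n : ℤ) with hv
  set AM : Finset ℕ := A.filter (fun n : ℕ => ∀ i, 1 ≤ v i n) with hAM
  have hmain2 : |∑ n ∈ A, ∏ i, qI z (v i n) - (Vz z)⁻¹ ^ k * AM.card| ≤ x / L ^ Q1 := by
    have e1 : ∑ n ∈ Icc 1 x, (if n ∈ A then (1 : ℝ) else 0) * ∏ i, qI z ((M i : ℤ) - (f i).eval (n : ℤ)) =
        ∑ n ∈ A, ∏ i, qI z (v i n) := by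
      have : ∀ n : ℕ, (if n ∈ A then (1 : ℝ) else 0) * ∏ i, qI z ((M i : ℤ) - (f i).eval (n : ℤ)) =
          if n ∈ A then ∏ i, qI z (v i n) else 0 := by
        intro n; split_ifs <;> simp [hv]
      simp only [this]
      rw [← sum_filter]
      congr 1
      ext n
      rw [mem_filter]
      exact ⟨fun h => h.2, fun h => ⟨hA h, h⟩⟩
    have e2 : ∑ n ∈ (Icc 1 x).filter (fun n : ℕ => ∀ i, 1 ≤ (M i : ℤ) - (f i).eval (n : ℤ)), (if n ∈ A then (1 : ℝ) else 0) = AM.card := by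
      rw [← sum_filter]
      rw [sum_const, nsmul_eq_mul, mul_one]
      congr 2
      ext n
      rw [mem_filter, mem_filter, hAM, mem_filter]
      constructor
      · rintro ⟨⟨_, h2⟩, h3⟩
        exact ⟨h3, h2⟩
      · rintro ⟨h2, h3⟩
        exact ⟨⟨hA h2, h3⟩, h2⟩
    have hmain4 : |∑ n ∈ A, ∏ i, qI z (v i n) - (Vz z)⁻¹ ^ k * AM.card| ≤ x / L ^ max (U + 1) Q1 := by
      rw [← e1, ← e2]
      convert hmain
    refine hmain4.trans ?_
    exact div_le_div_of_nonneg_left hx0.le (by positivity) (pow_le_pow_right₀ hL1 (le_max_right _ _))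
  set W : Finset ℕ := (Icc 1 x).filter (fun n : ℕ => ∃ i, 1 ≤ (M i : ℤ) - (f i).eval (n : ℤ) ∧
            ((M i : ℤ) - (f i).eval (n : ℤ)).toNat ∈ (Icc 1 (c1 * x ^ (f i).natDegree)).filter (fun v => sqd z v ∨
              (rgh z v : ℝ) ≤ ((x ^ (f i).natDegree : ℕ) : ℝ) ^ (1 - τ))) with hW
  have hup : ∀ i, ∀ n ∈ Icc 1 x, v i n ≤ ((c1 * x ^ (f i).natDegree : ℕ) : ℤ) := by
    intro i n hn
    rw [mem_Icc] at hn
    have hMi := (Fintype.mem_piFinset.1 hM) i
    rw [mem_Icc] at hMi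
    have h4 := (abs_le.1 (abs_eval_le (f i) n hn.1)).1
    have h5 : cf (f i) * n ^ (f i).natDegree ≤ univ.sup (fun i => cf (f i)) * x ^ (f i).natDegree := by
      apply Nat.mul_le_mul (le_sup (f := fun i => cf (f i)) (mem_univ i))
      exact Nat.pow_le_pow_left hn.2 _
    have h7 : ((cf (f i) * n ^ (f i).natDegree : ℕ) : ℤ) ≤ ((univ.sup (fun i => cf (f i)) * x ^ (f i).natDegree : ℕ) : ℤ) := by exact_mod_cast h5
    have h8 : (M i : ℤ) ≤ ((B * x ^ (f i).natDegree : ℕ) : ℤ) := by exact_mod_cast hMi.2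
    have h9 : ((c1 * x ^ (f i).natDegree : ℕ) : ℤ) = ((B * x ^ (f i).natDegree : ℕ) : ℤ) + ((univ.sup (fun i => cf (f i)) * x ^ (f i).natDegree : ℕ) : ℤ) := by
      rw [hc1]; push_cast; ring
    have h10 : ((cf (f i) * n ^ (f i).natDegree : ℕ) : ℤ) = (cf (f i) : ℤ) * (n : ℤ) ^ (f i).natDegree := by push_cast; ring
    rw [h9]
    rw [h10] at h7
    simp only [hv]
    linarith
  have hlogM : ∀ i, Real.log ((c1 * x ^ (f i).natDegree : ℕ) : ℝ) ≤ (1 + τ) * ((f i).natDegree * L) := by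
    intro i
    push_cast
    have hc1r : (1 : ℝ) ≤ c1 := by exact_mod_cast hc11
    rw [Real.log_mul (by linarith) (by positivity), Real.log_pow, ← hL]
    rw [div_le_iff₀ hτ0] at hLτ
    have : L * τ ≤ τ * ((f i).natDegree * L) := by nlinarith [hdi1 i, mul_pos hτ0 hL0]
    linarith
  set G : Finset ℕ := A.filter (fun n : ℕ => ∀ i, prm z (v i n)) with hG
  set P : ℕ → ℝ := fun n => ∏ i, qI z (v i n) with hP
  set Lk : ℝ := ∏ i, (((f i).natDegree : ℝ) * L) with hLk
  have hLkeq : Lk = dP * L ^ k := by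
    rw [hLk, prod_mul_distrib, prod_const, card_univ, Fintype.card_fin]
  have hLk1 : 1 ≤ Lk := by
    rw [hLkeq]
    exact one_le_mul_of_one_le_of_one_le hdP1 (one_le_pow₀ hL1)
  have hP0 : ∀ n, 0 ≤ P n := fun n => prod_nonneg fun i _ => qI_nonneg _ _
  have hPle : ∀ n ∈ A, P n ≤ (1 + τ) ^ k * Lk := by
    intro n hn
    have : P n ≤ ∏ i : Fin k, ((1 + τ) * ((f i).natDegree * L)) := by
      apply prod_le_prod (fun i _ => qI_nonneg _ _)
      intro i _
      exact (qI_le z _ (c1 * x ^ (f i).natDegree) (Nat.mul_pos hc11 (pow_pos (by omega) _)) (hup i n (hA hn))).trans (hlogM i)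
    rwa [prod_mul_distrib, prod_const, card_univ, Fintype.card_fin] at this
  have hPz : ∀ n ∈ A, n ∉ G → n ∉ W → P n = 0 := by
    intro n hn hnG hnW
    by_contra hne
    apply hnG
    rw [hG, mem_filter]
    refine ⟨hn, fun i => ?_⟩
    have h4 : qI z (v i n) ≠ 0 := by
      intro h
      exact hne (prod_eq_zero (mem_univ i) h)
    unfold qI at h4
    have h5 : 1 ≤ v i n := by
      by_contra h
      rw [if_neg h] at h4
      exact h4 rfl
    rw [if_pos h5] at h4
    refine ⟨h5, prime_of_lam (by omega) h4 ?_⟩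
    intro hs
    apply hnW
    rw [hW, mem_filter]
    refine ⟨hA hn, i, h5, ?_⟩
    rw [mem_filter, mem_Icc]
    have := hup i n (hA hn)
    have h10 : 1 ≤ (v i n).toNat := by omega
    exact ⟨⟨h10, Int.toNat_le.2 this⟩, Or.inl hs⟩
  have hPlow : ∀ n ∈ G, n ∉ W → (1 - τ) ^ k * Lk ≤ P n := by
    intro n hn hnW
    rw [hG, mem_filter] at hn
    have : ∏ i : Fin k, ((1 - τ) * ((f i).natDegree * L)) ≤ P n := by
      apply prod_le_prod
      · intro i _
        have := hdi1 i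
        apply mul_nonneg
        · linarith
        · positivity
      · intro i _
        obtain ⟨h5, h6⟩ := hn.2 i
        unfold qI
        rw [if_pos h5, ArithmeticFunction.vonMangoldt_apply_prime h6]
        have h7 : ((x ^ (f i).natDegree : ℕ) : ℝ) ^ (1 - τ) < (rgh z (v i n).toNat : ℝ) := by
          by_contra h
          push Not at h
          apply hnW
          rw [hW, mem_filter]
          refine ⟨hA hn.1, i, h5, ?_⟩
          rw [mem_filter, mem_Icc]
          have := hup i n (hA hn.1)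
          have h10 : 1 ≤ (v i n).toNat := by omega
          exact ⟨⟨h10, Int.toNat_le.2 this⟩, Or.inr h⟩
        have hX0 : (0 : ℝ) < ((x ^ (f i).natDegree : ℕ) : ℝ) := by exact_mod_cast pow_pos (by omega : 0 < x) _
        have h8 := Real.log_le_log (by positivity) h7.le
        rw [Real.log_rpow hX0] at h8
        push_cast at h8
        rw [Real.log_pow, ← hL] at h8
        exact h8
    rwa [prod_mul_distrib, prod_const, card_univ, Fintype.card_fin] at this
  have hS1 : ∑ n ∈ A, P n ≤ ((G.card : ℝ) + W.card) * ((1 + τ) ^ k * Lk) := by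
    have e1 : ∑ n ∈ A, P n ≤ ∑ n ∈ A, if n ∈ G ∪ W then (1 + τ) ^ k * Lk else 0 := by
      apply sum_le_sum
      intro n hn
      split_ifs with h
      · exact hPle n hn
      · rw [mem_union, not_or] at h
        exact (hPz n hn h.1 h.2).le
    refine e1.trans ?_
    rw [← sum_filter, sum_const, nsmul_eq_mul]
    apply mul_le_mul_of_nonneg_right _ (by positivity)
    have e2 : (A.filter (fun n => n ∈ G ∪ W)).card ≤ G.card + W.card :=
      (card_le_card (fun n hn => (mem_filter.1 hn).2)).trans (card_union_le _ _)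
    exact_mod_cast e2
  have hS2 : ((G.card : ℝ) - W.card) * ((1 - τ) ^ k * Lk) ≤ ∑ n ∈ A, P n := by
    have hp : 0 ≤ (1 - τ) ^ k * Lk := mul_nonneg (pow_nonneg (by linarith) _) (by linarith)
    have e1 : ((G.card : ℝ) - W.card) ≤ ((G \ W).card : ℝ) := by
      have := le_card_sdiff W G
      have h' : G.card ≤ (G \ W).card + W.card := by omega
      have h'' : (G.card : ℝ) ≤ (G \ W).card + W.card := by exact_mod_cast h'
      linarith
    calc ((G.card : ℝ) - W.card) * ((1 - τ) ^ k * Lk) ≤ ((G \ W).card : ℝ) * ((1 - τ) ^ k * Lk) :=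
          mul_le_mul_of_nonneg_right e1 hp
      _ = ∑ n ∈ G \ W, ((1 - τ) ^ k * Lk) := by rw [sum_const, nsmul_eq_mul]
      _ ≤ ∑ n ∈ G \ W, P n := by
          apply sum_le_sum
          intro n hn
          rw [mem_sdiff] at hn
          exact hPlow n hn.1 hn.2
      _ ≤ ∑ n ∈ A, P n := by
          apply sum_le_sum_of_subset_of_nonneg
          · intro n hn
            exact (mem_filter.1 (mem_sdiff.1 hn).1).1
          · intro n _ _
            exact hP0 n
  -- final arithmetic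
  have hDen : ∏ i, (Vz z * ((f i).natDegree * L)) = Vz z ^ k * Lk := by
    rw [prod_mul_distrib, prod_const, card_univ, Fintype.card_fin]
  change |(G.card : ℝ) - AM.card / ∏ i, (Vz z * ((f i).natDegree * L))| ≤ ε * (A.card / ∏ i, (Vz z * ((f i).natDegree * L)))
  rw [hDen]
  have hVk0 : 0 < Vz z ^ k := by positivity
  have hLk0 : 0 < Lk := by linarith
  set e : ℝ := x / L ^ Q1 with he
  have he0 : 0 ≤ e := by positivity
  have hDLk : (AM.card : ℝ) / (Vz z ^ k * Lk) * Lk = (Vz z)⁻¹ ^ k * AM.card := by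
    rw [inv_pow]; field_simp
  rw [← hDLk] at hmain2
  obtain ⟨m1, m2⟩ := abs_le.1 hmain2
  have hD' : e * (L / dP) ≤ A.card / (Vz z ^ k * Lk) := by
    have hVk1 : Vz z ^ k ≤ 1 := pow_le_one₀ hV0.le hV1
    have d1 : A.card / Lk ≤ A.card / (Vz z ^ k * Lk) := by
      apply div_le_div_of_nonneg_left (Nat.cast_nonneg _) (by positivity)
      exact mul_le_of_le_one_left hLk0.le hVk1
    refine le_trans ?_ d1
    rw [hLkeq]
    have d2 : x / L ^ C / (dP * L ^ k) ≤ A.card / (dP * L ^ k) := div_le_div_of_nonneg_right hAc (by positivity)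
    refine le_trans ?_ d2
    have hdP0 : 0 < dP := by linarith
    have d3 : x / L ^ C / (dP * L ^ k) = (e * (L / dP)) * L := by
      rw [he, hQ1, show C + k + 2 = C + k + 1 + 1 by ring, pow_succ, pow_succ, pow_add]
      field_simp
    rw [d3]
    exact le_mul_of_one_le_right (by positivity) hL1
  have hdP0 : 0 < dP := by linarith
  have hDD : (AM.card : ℝ) / (Vz z ^ k * Lk) ≤ A.card / (Vz z ^ k * Lk) := by
    apply div_le_div_of_nonneg_right _ (by positivity)
    exact_mod_cast card_le_card (filter_subset _ _)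
  refine arith2 (G.card : ℝ) W.card (AM.card / (Vz z ^ k * Lk)) (A.card / (Vz z ^ k * Lk)) e ε ((1 + τ) ^ k) ((1 - τ) ^ k) Lk 1 (∑ n ∈ A, P n)
    (Nat.cast_nonneg _) (Nat.cast_nonneg _) zero_le_one he0 (by positivity) hDD hε hLk1 (one_le_pow₀ (by linarith)) (by linarith)
    ht1 ht2 ht3 ht4 (by rw [one_mul]; exact hfew) ?_ ?_ m1 m2 hS1 hS2
  · have f1 : 32 ≤ ε * (L / dP) := by
      rw [div_le_iff₀ hε] at hLε
      rw [mul_div_assoc', le_div_iff₀ hdP0]
      linarith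
    calc 16 * ((1 : ℝ) + 1) * e = 32 * e := by ring
      _ ≤ (ε * (L / dP)) * e := mul_le_mul_of_nonneg_right f1 he0
      _ = ε * (e * (L / dP)) := by ring
      _ ≤ _ := mul_le_mul_of_nonneg_left hD' hε.le
  · have f1 : 2 ≤ L / dP := by rw [le_div_iff₀ hdP0]; exact hLd
    have f2 : e * 2 ≤ e * (L / dP) := mul_le_mul_of_nonneg_left f1 he0
    linarith

end Pool.Agent.W23.UG
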