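import Pool.Agent.W23.UG.Fin3
import Pool.Agent.W790.UL.SMB
import Pool.Agent.W131.UL.SUPR
import Pool.Agent.W366.UL.BILR

/-! UG project: the theorems from TUPG. -/

namespace Pool.Agent.W23.UG

open Finset Polynomial
open Pool.Agent.H373R2.T7
open Pool.Agent.W23.UL

theorem bilq : BIL qI rI := Pool.Agent.W366.UL.BILR (Pool.Agent.W131.UL.SUPR Pool.Agent.W790.UL.SMB)

theorem bill : BIL (fun _ => lamI) lamzI := fun f hd hl B hB U => bil_lam f hd hl B hB U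

lemma lamI_le_log (v : ℤ) (h : 1 ≤ v) : lamI v ≤ Real.log v := lamI_le v v (by exact_mod_cast h) le_rfl

lemma lamI_zero (v : ℤ) (h : v ≤ 0) : lamI v = 0 := by
  unfold lamI
  rw [if_neg (by omega)]

open Classical in
theorem honestG (hT : St_TUPG) (k : ℕ) (f : Fin k → ℤ[X]) (hf : ∀ i, 1 ≤ (f i).natDegree)
    (hl : ∀ i, 0 < (f i).leadingCoeff) (B : ℕ) (hB : 1 ≤ B) (U : ℕ) :
    ∃ B0 : ℕ, ∀ E : ℕ, ∃ x0 : ℕ, ∀ x : ℕ, x0 ≤ x →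
      ∀ z : ℕ, Real.log x ^ B0 ≤ z → (z : ℝ) ≤ Real.log x ^ E →
      ∀ g : ℕ → ℝ, (∀ n, |g n| ≤ 1) →
      ∃ H : Finset (Fin k → ℕ), (H.card : ℝ) ≤ (∏ i, ((x : ℝ) ^ (f i).natDegree)) / Real.log x ^ U ∧
        ∀ M ∈ Fintype.piFinset (fun i => Icc 1 (B * x ^ (f i).natDegree)), M ∉ H →
          |∑ n ∈ Icc 1 x, g n * ∏ i, lamI ((M i : ℤ) - (f i).eval (n : ℤ)) -
            (Vz z)⁻¹ ^ k * ∑ n ∈ (Icc 1 x).filter (fun n : ℕ => ∀ i, rough z ((M i : ℤ) - (f i).eval (n : ℤ))), g n| ≤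
            x / Real.log x ^ U :=
  lawG hT (fun _ => lamI) lamzI bill (fun _ k => lamI_nonneg k) (fun _ k h => lamI_le_log k h) (fun _ k h => lamI_zero k h)
    (fun z k => lamzI_nonneg z k) (fun z k => lamzI_le z k) rough (fun k z s => lamzI_prod z s) k f hf hl B hB U

open Classical in
theorem ruleG (hT : St_TUPG) (k : ℕ) (f : Fin k → ℤ[X]) (hf : ∀ i, 1 ≤ (f i).natDegree)
    (hl : ∀ i, 0 < (f i).leadingCoeff) (B : ℕ) (hB : 1 ≤ B) (U : ℕ) :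
    ∃ B0 : ℕ, ∀ E : ℕ, ∃ x0 : ℕ, ∀ x : ℕ, x0 ≤ x →
      ∀ z : ℕ, Real.log x ^ B0 ≤ z → (z : ℝ) ≤ Real.log x ^ E →
      ∀ g : ℕ → ℝ, (∀ n, |g n| ≤ 1) →
      ∃ H : Finset (Fin k → ℕ), (H.card : ℝ) ≤ (∏ i, ((x : ℝ) ^ (f i).natDegree)) / Real.log x ^ U ∧
        ∀ M ∈ Fintype.piFinset (fun i => Icc 1 (B * x ^ (f i).natDegree)), M ∉ H →
          |∑ n ∈ Icc 1 x, g n * ∏ i, qI z ((M i : ℤ) - (f i).eval (n : ℤ)) -
            (Vz z)⁻¹ ^ k * ∑ n ∈ (Icc 1 x).filter (fun n : ℕ => ∀ i, 1 ≤ (M i : ℤ) - (f i).eval (n : ℤ)), g n| ≤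
            x / Real.log x ^ U := by
  have h := lawG hT qI rI bilq qI_nonneg qI_le_log qI_zero rI_nonneg rI_le (fun _ v => 1 ≤ v)
    (fun k z s => by convert rI_prod' z s) k f hf hl B hB U
  convert h

end Pool.Agent.W23.UG
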